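import Pool.Agent.R437.Met.Hs
import Pool.Agent.Results.MP_26ad15_nt.AlgebraicCurves

/-!
# Values of the Gamma function on algebraic curves, at the algebraic points near a given point

Let `z_ji = y_ji(t_j)`, `i < p`, `j < n`, where the `y_ji` are algebraic functions of `t_j` such that for each `j`
the curve `(y_ji)_i` satisfies condition (H) as a tuple of functions: no `y_ji` is constant or in `ℚ y_jk + ℚ`,
`k ≠ i` (for instance `n = 1`, `y_i(t) = α_i t + γ_i` with complex `α_i ≠ 0`, `γ_i`, or `y_i(t) = t ^ i`,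
`i = 1, …, p`). Let `F` be a number field in `ℂ`. For all points `ξ` outside a set of Hausdorff dimension at most
`2 [F : ℚ] (n - 1) / τ` the `n`-tuples of parameters `t_j` in `F` of height at most `T`, `T` large, with
`|ξ_j - t_j| ≤ C T ^ (-τ)` have the following property: the `n p` numbers `Γ(z_ji)` satisfy no relation, not even an
approximate one, of degree at most `d` whose coefficients are integer polynomials, over `F`, in values of rational
functions of the `t_j` and in given complex constants `c_1, …, c_g`, of degree at most `d` and height at most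
`T ^ A`. For `n = 1` the exceptional set has dimension zero, for every `τ > 0`. The starting file `AlgebraicCurves`
bounds the number of the exceptional tuples by `C T ^ ε N(T) ^ (n - 1)`, `N(T)` being the number of elements of `F`
of height at most `T` in a compact set.
-/

set_option autoImplicit false

open NumberField

namespace Pool.Agent.Results.MP_26ad15_nt.NearEveryPoint

open Pool.Agent.R437.Met

variable {n p q g : ℕ}

/-- The elements of the number field `F` which are quotients of two integers of `F` all of whose conjugates have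
absolute value at most `T`. -/
def Points (F : Type) [Field F] [NumberField F] (T : ℝ) : Set F :=
  {x | ∃ a b : 𝓞 F, b ≠ 0 ∧ (∀ φ : F →+* ℂ, ‖φ a‖ ≤ T ∧ ‖φ b‖ ≤ T) ∧ x = a / b}

/-- The value of a polynomial with coefficients in the integers of `F` at the `n q + g` numbers
`u_jk(t_j) / w_j(t_j)` and `c_s`. -/
noncomputable def coefficient (F : Type) [Field F] (ι : F →+* ℂ) (u : Fin n → Fin q → Polynomial ℂ)
    (w : Fin n → Polynomial ℂ) (c : Fin g → ℂ) (t : Fin n → F) :
    MvPolynomial ((Fin n × Fin q) ⊕ Fin g) (𝓞 F) →+* ℂ :=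
  MvPolynomial.eval₂Hom (ι.comp (algebraMap (𝓞 F) F))
    (Sum.elim (fun x => (u x.1 x.2).eval (ι (t x.1)) / (w x.1).eval (ι (t x.1))) c)

/-- There is a polynomial `P` in `n p` variables, of degree at most `d` in each variable, whose coefficients are
values `coefficient r` of polynomials `r` of degree at most `d` in each variable with coefficients all of whose
conjugates are at most `T ^ A`, such that the value of `P` at the `n p` numbers `Γ(y_ji(t_j))` is at most `T ^ (-B)`
times the absolute value of some nonzero coefficient of `P`. -/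
def Related (F : Type) [Field F] [NumberField F] (ι : F →+* ℂ) (y : Fin n → Fin p → ℂ → ℂ)
    (u : Fin n → Fin q → Polynomial ℂ) (w : Fin n → Polynomial ℂ) (c : Fin g → ℂ) (d : ℕ) (A B T : ℝ)
    (t : Fin n → F) : Prop :=
  ∃ P : MvPolynomial (Fin n × Fin p) (MvPolynomial ((Fin n × Fin q) ⊕ Fin g) (𝓞 F)),
    (∀ x, P.degreeOf x ≤ d) ∧ (∀ e v, (P.coeff e).degreeOf v ≤ d) ∧
    (∀ e s (φ : F →+* ℂ), ‖φ ((P.coeff e).coeff s : 𝓞 F)‖ ≤ T ^ A) ∧
    ∃ e₀, coefficient F ι u w c t (P.coeff e₀) ≠ 0 ∧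
      ‖MvPolynomial.eval₂ (coefficient F ι u w c t) (fun x => Complex.Gamma (y x.1 x.2 (ι (t x.1)))) P‖ ≤
        T ^ (-B) * ‖coefficient F ι u w c t (P.coeff e₀)‖

/-- **Points near a given point.** For `j < n`, `n ≥ 1`, let `Ω_j` be open and connected, `y_ji` (`i < p`)
holomorphic on `Ω_j`, algebraic, not constant, `y_ji` not in `ℚ y_jk + ℚ` for `i ≠ k`; let `u_jk`, `w_j` be complex
polynomials, `F` a number field with an embedding `ι` in `ℂ`, `c_1, …, c_g` complex numbers. For every `τ > 0` there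
is a set `E` of Hausdorff dimension at most `2 [F : ℚ] (n - 1) / τ` such that for all `ξ` outside `E` with `ξ_j` in
`Ω_j`, `w_j(ξ_j) ≠ 0` and `y_ji(ξ_j)` not `0, -1, -2, …`, and all `d` and `A` there is `B` such that for all `C` and
all large `T`: for the `n`-tuples `t` of points of height at most `T` with `|ξ_j - ι(t_j)| ≤ C T ^ (-τ)` for all `j`
the numbers `Γ(y_ji(t_j))` are not related in the sense of `Related`. -/
theorem result (n p q g : ℕ) (hn : 1 ≤ n) (Ω : Fin n → Set ℂ) (hΩ : ∀ j, IsOpen (Ω j))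
    (hΩc : ∀ j, IsPreconnected (Ω j)) (y : Fin n → Fin p → ℂ → ℂ)
    (hy : ∀ j i, DifferentiableOn ℂ (y j i) (Ω j))
    (halg : ∀ j i, ∃ Q : Polynomial (Polynomial ℂ), Q ≠ 0 ∧ ∀ t ∈ Ω j, Q.evalEval t (y j i t) = 0)
    (hnc : ∀ j i, ∀ v : ℂ, ¬ ∀ t ∈ Ω j, y j i t = v)
    (hH : ∀ j i k, i ≠ k → ∀ a b : ℚ, ¬ ∀ t ∈ Ω j, y j i t = a * y j k t + b)
    (u : Fin n → Fin q → Polynomial ℂ) (w : Fin n → Polynomial ℂ) (F : Type) [Field F] [NumberField F]
    (ι : F →+* ℂ) (c : Fin g → ℂ) (τ : ℝ) (hτ : 0 < τ) :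
    ∃ E : Set (Fin n → ℂ), dimH E ≤ ENNReal.ofReal (2 * (Module.finrank ℚ F : ℝ) * ((n : ℝ) - 1) / τ) ∧
      ∀ ξ : Fin n → ℂ, (∀ j, ξ j ∈ Ω j ∧ (w j).eval (ξ j) ≠ 0 ∧ ∀ i, ∀ l : ℕ, y j i (ξ j) ≠ -l) → ξ ∉ E →
        ∀ (d : ℕ) (A : ℝ), ∃ B : ℝ, ∀ C : ℝ, ∃ T₁ : ℝ, ∀ T : ℝ, T₁ ≤ T → ∀ t : Fin n → F,
          (∀ j, t j ∈ Points F T ∧ ‖ξ j - ι (t j)‖ ≤ C * T ^ (-τ)) →
            ¬ Related F ι y u w c d A B T t := by
  set S : Fin n → Set ℂ := fun j => {t | t ∈ Ω j ∧ (w j).eval t ≠ 0 ∧ ∀ i, ∀ l : ℕ, y j i t ≠ -l} with hSdef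
  have hS : ∀ j, IsOpen (S j) := by
    intro j
    have e : S j = {t | t ∈ Ω j} ∩ ({t | (w j).eval t ≠ 0} ∩
        ⋂ i, (Ω j ∩ (fun t => (Complex.Gamma (y j i t))⁻¹) ⁻¹' {0}ᶜ)) ∪
        (Ω j ∩ {t | (w j).eval t ≠ 0 ∧ IsEmpty (Fin p)}) := by
      ext t
      simp only [hSdef, Set.mem_ofPred_eq, Set.mem_inter_iff, Set.mem_union, Set.mem_iInter,
        Set.mem_preimage, Set.mem_compl_iff, Set.mem_singleton_iff, inv_eq_zero,
        Complex.Gamma_eq_zero_iff, not_exists]
      constructor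
      · rintro ⟨h1, h2, h3⟩
        exact Or.inl ⟨h1, h2, fun i => ⟨h1, h3 i⟩⟩
      · rintro (⟨h1, h2, h3⟩ | ⟨h1, h2, h3⟩)
        · exact ⟨h1, h2, fun i => (h3 i).2⟩
        · exact ⟨h1, h2, fun i => (h3.false i).elim⟩
    rw [e]
    have hwo : IsOpen {t : ℂ | (w j).eval t ≠ 0} := isOpen_ne_fun (w j).continuous continuous_const
    refine IsOpen.union ((hΩ j).inter (hwo.inter (isOpen_iInter_of_finite fun i => ?_))) ?_
    · refine ContinuousOn.isOpen_inter_preimage ?_ (hΩ j) isOpen_compl_singleton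
      exact (Complex.differentiable_one_div_Gamma.continuous).comp_continuousOn (hy j i).continuousOn
    · by_cases hp : IsEmpty (Fin p)
      · have : {t : ℂ | (w j).eval t ≠ 0 ∧ IsEmpty (Fin p)} = {t : ℂ | (w j).eval t ≠ 0} := by
          ext t
          simp only [Set.mem_ofPred_eq]
          tauto
        rw [this]
        exact (hΩ j).inter hwo
      · have : Ω j ∩ {t : ℂ | (w j).eval t ≠ 0 ∧ IsEmpty (Fin p)} = ∅ := by
          ext t
          simp only [Set.mem_inter_iff, Set.mem_ofPred_eq, Set.mem_empty_iff_false]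
          tauto
        rw [this]
        exact isOpen_empty
  obtain ⟨E, hE, h⟩ := Hs.tuple F ι n hn S hS (J := ℕ) (fun d A B T t => Related F ι y u w c d A B T t)
    (by
      rintro d A A' B T t hA hT ⟨P, h1, h2, h3, h4⟩
      exact ⟨P, h1, h2, fun e s φ => (h3 e s φ).trans (Fam.pow_mono hA hT), h4⟩)
    (by
      rintro d A B B' T t hB hT ⟨P, h1, h2, h3, e₀, h4, h5⟩
      exact ⟨P, h1, h2, h3, e₀, h4, h5.trans (mul_le_mul_of_nonneg_right
        (Fam.pow_mono (by linarith) hT) (norm_nonneg _))⟩)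
    (by
      rintro d A B T T' t hA hB h2B hT hTT hT2 ⟨P, h1, h2, h3, e₀, h4, h5⟩
      exact ⟨P, h1, h2, fun e s φ => (h3 e s φ).trans (Real.rpow_le_rpow (by linarith) hTT hA), e₀, h4,
        h5.trans (mul_le_mul_of_nonneg_right (Fam.pow_dyadic hB hT hTT hT2 h2B) (norm_nonneg _))⟩)
    (by
      intro K hK hKS d A ε hε
      obtain ⟨B, C, T₀, h⟩ := AlgebraicCurves.result (Module.finrank ℚ F) n p q g d Ω hΩ hΩc y hy halg hnc hH K
        hK (fun j t ht => (hKS j ht).1) (fun j t ht => (hKS j ht).2.2) u w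
        (fun j t ht => (hKS j ht).2.1) A ε hε
      refine ⟨B, C, T₀, ⋃ j, K j, fun T hT => ?_⟩
      obtain ⟨h1, h2⟩ := h F le_rfl ι c T hT
      have e : {t : Fin n → F | (∀ j, ι (t j) ∈ K j ∧ Hs.IsPt F T (t j)) ∧ Related F ι y u w c d A B T t} =
          AlgebraicCurves.Exceptional F ι d y u w c K A B T := rfl
      rw [e]
      exact ⟨h1, h2⟩)
    τ hτ
  exact ⟨E, hE, fun ξ hξ hξE d A => h ξ hξ hξE d A⟩

end Pool.Agent.Results.MP_26ad15_nt.NearEveryPoint
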