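import Pool.Agent.R728.RC.Each
import Pool.Agent.Results.MP_26ad15_nt.RationalParameters

/-!
# π and values of the Gamma function at all rational parameters in random residue classes

Let `α_j > 0` and `γ_j` be real numbers such that no nonzero integer vector `m` satisfies both
`∑ m_j α_j = 0` and `∑ m_j α_j log α_j = 0`. Let `𝓜` be a set of moduli with `∑ m ^ (-s) < ∞` and
let `X m` be random elements of any sets `Y m`, each value of which has probability at most
`K m ^ (-θ)`; no independence is assumed. Let `φ m` be any maps from the rational numbers to `Y m`,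
for instance the residue modulo `m`. If `β > 2 - 2 / ((d + 1)^(n + 1) + 1)` and `ρ β ≤ θ - s` then
almost surely, for all but finitely many `m` in `𝓜`, for ALL rational numbers `q` in `[a, b]` with
denominator at most `m ^ ρ` and `φ m q = X m`, the `n + 1` numbers `π`, `Γ(α_j q + γ_j)` satisfy no
approximate polynomial relation of degree at most `d` in each variable with integer coefficients
bounded by a fixed power of `m`.
-/

set_option autoImplicit false

namespace Pool.Agent.Results.MP_26ad15_nt.RandomResidues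

open MeasureTheory

/-- The `n + 1` numbers `π` and `Γ(α_j q + γ_j)`, `j = 1, …, n`. -/
noncomputable def values {n : ℕ} (α γ : Fin n → ℝ) (q : ℚ) (x : Option (Fin n)) : ℝ :=
  match x with
  | none => Real.pi
  | some j => Real.Gamma (α j * q + γ j)

lemma values_eq {n : ℕ} (α γ : Fin n → ℝ) (q : ℚ) :
    values α γ q = RationalParameters.values α γ q := by
  funext x
  cases x <;> rfl

/-- **Theorem.** Let `a < b`, `α_j > 0`, `α_j a + γ_j > 0`, let `d` and `A ≥ 0` be given and let
`β > 2 - 2 / ((d + 1)^(n + 1) + 1)`. There is `B` with the following property. Let `𝓜` be a set of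
positive integers with a convergent sum of the `m ^ (-s)`, let `X m` be random elements of
arbitrary sets `Y m`, each value of which has probability at most `K m ^ (-θ)` (no independence is
assumed), and let `φ m` be any maps from the rational numbers to `Y m`; let `ρ ≥ 0` and
`ρ β ≤ θ - s`. Almost surely, for all but finitely many `m` in `𝓜`, with `T = m ^ ρ`, for ALL
rational numbers `q` in `[a, b]` with denominator at most `T` and `φ m q = X m`, all nonzero
polynomials `F` in `n + 1` variables with integer coefficients of absolute value at most `T ^ A`,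
of degree at most `d` in each variable, take at `π`, `Γ(α_j q + γ_j)` a value of absolute value
larger than `T ^ (-B)`. -/
theorem result (n d : ℕ) (α γ : Fin n → ℝ) (hα : ∀ j, 0 < α j)
    (hH : ∀ m : Fin n → ℤ, ∑ j, (m j : ℝ) * α j = 0 →
      ∑ j, (m j : ℝ) * (α j * Real.log (α j)) = 0 → m = 0)
    (a b : ℝ) (hab : a < b) (ha : ∀ j, 0 < α j * a + γ j) (A β : ℝ) (hA : 0 ≤ A)
    (hβ : 2 - 2 / (((d : ℝ) + 1) ^ (n + 1) + 1) < β) :
    ∃ B : ℝ, ∀ (𝓜 : Set ℕ) (s θ K ρ : ℝ) (Ω : Type) [MeasurableSpace Ω] (P : Measure Ω)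
      (Y : ℕ → Type) (X : ∀ m : ℕ, Ω → Y m) (φ : ∀ m : ℕ, ℚ → Y m),
      (∀ m ∈ 𝓜, 0 < m) → (Summable fun m : 𝓜 => ((m : ℕ) : ℝ) ^ (-s)) →
      (∀ m ∈ 𝓜, ∀ y : Y m, P {ω | X m ω = y} ≤ ENNReal.ofReal (K * (m : ℝ) ^ (-θ))) →
      0 ≤ ρ → ρ * β ≤ θ - s →
      ∀ᵐ ω ∂P, ∃ m₀ : ℕ, ∀ m ∈ 𝓜, m₀ ≤ m → ∀ q : ℚ, a ≤ q → q ≤ b →
        (q.den : ℝ) ≤ (m : ℝ) ^ ρ → φ m q = X m ω →
        ∀ F : MvPolynomial (Option (Fin n)) ℤ, F ≠ 0 → (∀ x, F.degreeOf x ≤ d) →
          (∀ s, |((F.coeff s : ℤ) : ℝ)| ≤ ((m : ℝ) ^ ρ) ^ A) →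
          ((m : ℝ) ^ ρ) ^ (-B) < |MvPolynomial.aeval (values α γ q) F| := by
  obtain ⟨B, C, hBC⟩ := RationalParameters.result n d α γ hα hH a b hab ha A β hA hβ
  refine ⟨B, fun 𝓜 s θ K ρ Ω _ P Y X φ h0 hsum hX hρ h => ?_⟩
  have hmain := Pool.Agent.R728.RC.eventually_each (𝓜 := 𝓜) (s := s) (θ := θ) (A := K)
    (D := |C|) (X := X) (φ := φ) (P := P)
    (F := fun m => RationalParameters.Exceptional α γ d a b A B ((m : ℝ) ^ ρ))
    h0 hsum hX (by
      intro m hm
      have hm1 : (1 : ℝ) ≤ (m : ℝ) := by exact_mod_cast h0 m hm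
      obtain ⟨h1, h2⟩ := hBC ((m : ℝ) ^ ρ) (Real.one_le_rpow hm1 hρ)
      refine ⟨h1, h2.trans ?_⟩
      rw [← Real.rpow_mul (by linarith)]
      exact mul_le_mul (le_abs_self C) (Real.rpow_le_rpow_of_exponent_le hm1 h) (by positivity)
        (abs_nonneg C))
  filter_upwards [hmain] with ω hω
  obtain ⟨m₀, hm₀⟩ := hω
  refine ⟨m₀, fun m hm hmm q h1 h2 h3 h4 F h5 h6 h7 => ?_⟩
  by_contra hcon
  push Not at hcon
  rw [values_eq] at hcon
  exact hm₀ m hm hmm q ⟨h1, h2, h3, F, h5, h6, h7, hcon⟩ h4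

end Pool.Agent.Results.MP_26ad15_nt.RandomResidues
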