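import Pool.Agent.R349.Generic
import Pool.Agent.Y549.GM.Loc

/-!
# The Schanuel-type conjecture for the Gamma function on algebraic curves: a bounded number of exceptions in small discs

Let `(y_1, …, y_p)` be an algebraic curve which satisfies condition (H) as a tuple of functions: the `y_i` are algebraic functions
of one parameter `t`, and no `y_i` is constant or in `ℚ y_k + ℚ`, `k ≠ i`; for instance `y_i(t) = α_i t + γ_i` with complex numbers
`α_i ≠ 0`, `γ_i`. We consider the `n p` numbers `Γ(y_i(t_j))` for `n`-tuples of parameters `t_j` in a number field `F` of degree at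
most `m`, of height at most `T` and in a compact set `L`; for instance all `t_j` can be fractions with one fixed denominator `T`.
Let `X_1, …, X_n` be finite sets of such parameters, each of diameter at most `T ^ (-δ)`. All but `C ∑_j ∏_(i ≠ j) |X_i|` of the
tuples of `X_1 × … × X_n` are good, and there is a good one if all `|X_j| > C`; here `C` does not depend on `T`, `F` and the
`X_j`. Good means that the `n p + 1` numbers `π` and `Γ(y_i(t_j))` satisfy no polynomial relation of degree at most `d` and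
height at most `T ^ A` over `F`, and the `n p` numbers `Γ(y_i(t_j))` satisfy no such relation, not even an approximate one,
whose coefficients are combinations of given complex numbers `ξ_1, …, ξ_g`.
-/

set_option autoImplicit false

open NumberField

namespace Pool.Agent.Results.MP_26ad15_nt.SmallDiscs

/-- The polynomials of degree at most `d` in each variable, all of whose coefficients are of the form `∑ ξ_i ι(c_i)`, where
the `c_i` are integers of the number field `F` all of whose conjugates have absolute value at most `H`. -/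
def Admissible {σ : Type} {g : ℕ} (F : Type) [Field F] [NumberField F] (ι : F →+* ℂ) (ξ : Fin g → ℂ) (d : ℕ) (H : ℝ)
    (P : MvPolynomial σ ℂ) : Prop :=
  (∀ j, P.degreeOf j ≤ d) ∧
    ∀ s, ∃ c : Fin g → 𝓞 F, (∀ i (φ : F →+* ℂ), ‖φ (c i)‖ ≤ H) ∧ P.coeff s = ∑ i, ξ i * ι (c i)

/-- The tuple `t` of elements of `F` is good: every admissible polynomial takes at the `n p` numbers `Γ(y_i(t_j))` a value which
is at least `δ` times each of its coefficients, and `π` and these numbers satisfy no relation `Q = 0` with a nonzero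
polynomial `Q` of degree at most `d` in each variable whose coefficients are integers of `F` with conjugates of absolute
value at most `H`. -/
def Good {n p g : ℕ} (F : Type) [Field F] [NumberField F] (ι : F →+* ℂ) (ξ : Fin g → ℂ) (y : Fin p → ℂ → ℂ) (d : ℕ)
    (H δ : ℝ) (t : Fin n → F) : Prop :=
  (∀ P : MvPolynomial (Fin n × Fin p) ℂ, Admissible F ι ξ d H P → ∀ s,
    δ * ‖P.coeff s‖ ≤ ‖MvPolynomial.aeval (fun x : Fin n × Fin p => Complex.Gamma (y x.2 (ι (t x.1)))) P‖) ∧
  ∀ Q : MvPolynomial (Option (Fin n × Fin p)) (𝓞 F), Q ≠ 0 → (∀ x, Q.degreeOf x ≤ d) →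
    (∀ s (φ : F →+* ℂ), ‖φ ((Q.coeff s : 𝓞 F) : F)‖ ≤ H) →
    MvPolynomial.eval₂ (ι.comp (algebraMap (𝓞 F) F))
      (fun o => o.elim (Real.pi : ℂ) fun x : Fin n × Fin p => Complex.Gamma (y x.2 (ι (t x.1)))) Q ≠ 0

/-- The element `x` of `F` is a quotient of integers all of whose conjugates have absolute value at most `T`. -/
def HeightLe (F : Type) [Field F] [NumberField F] (T : ℝ) (x : F) : Prop :=
  ∃ a b : 𝓞 F, b ≠ 0 ∧ (∀ φ : F →+* ℂ, ‖φ a‖ ≤ T ∧ ‖φ b‖ ≤ T) ∧ x = a / b

/-- Let the `y_i` be holomorphic functions on the connected open set `Ω` which are algebraic over `ℂ(t)`, not constant, and such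
that no `y_i` is in `ℚ y_k + ℚ`, `k ≠ i`. Let `L` be a compact subset of `Ω` on which the `y_i` take no value
`0, -1, -2, …`. -/
theorem result (n m p g d : ℕ) (Ω : Set ℂ) (hΩ : IsOpen Ω) (hΩc : IsPreconnected Ω)
    (y : Fin p → ℂ → ℂ) (hy : ∀ i, DifferentiableOn ℂ (y i) Ω)
    (halg : ∀ i, ∃ Q : Polynomial (Polynomial ℂ), Q ≠ 0 ∧ ∀ t ∈ Ω, Q.evalEval t (y i t) = 0)
    (hnc : ∀ i, ∀ v : ℂ, ¬ ∀ t ∈ Ω, y i t = v)
    (hH : ∀ i k, i ≠ k → ∀ a b : ℚ, ¬ ∀ t ∈ Ω, y i t = a * y k t + b)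
    (L : Set ℂ) (hL : IsCompact L) (hLΩ : L ⊆ Ω) (hLp : ∀ t ∈ L, ∀ i, ∀ l : ℕ, y i t ≠ -l)
    (A δ : ℝ) (hδ : 0 < δ) :
    ∃ (B : ℝ) (C : ℕ) (T₀ : ℝ), ∀ (F : Type) [Field F] [NumberField F], Module.finrank ℚ F ≤ m →
      ∀ (ι : F →+* ℂ) (ξ : Fin g → ℂ) (T : ℝ), T₀ ≤ T → ∀ X : Fin n → Finset F,
        (∀ k, ∀ x ∈ X k, ι x ∈ L ∧ HeightLe F T x) → (∀ k, ∀ x ∈ X k, ∀ x' ∈ X k, ‖ι x - ι x'‖ ≤ T ^ (-δ)) →
        (({t : Fin n → F | (∀ k, t k ∈ X k) ∧ ¬ Good F ι ξ y d (T ^ A) (T ^ (-B)) t}.ncard : ℝ) ≤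
          C * ∑ k, ∏ i ∈ Finset.univ.erase k, ((X i).card : ℝ)) ∧
        ((∀ k, C < (X k).card) → ∃ t : Fin n → F, (∀ k, t k ∈ X k) ∧ Good F ι ξ y d (T ^ A) (T ^ (-B)) t) := by
  exact Pool.Agent.R349.Gen.shortG m n g d (fun _ (i : Fin p) t => Complex.Gamma (y i t)) L hL
    (fun _ i t ht => by
      have h1 : AnalyticAt ℂ Complex.Gamma (y i t) := Pool.Agent.Y771.RP.Gamma_analyticAt fun l => hLp t ht i l
      exact AnalyticAt.fun_comp h1 ((hy i).analyticAt (hΩ.mem_nhds (hLΩ ht))))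
    (fun _ t ht => Pool.Agent.Y549.GM.locInd Ω hΩ hΩc y hy halg hnc hH t (hLΩ ht) fun i l => hLp t ht i l) A δ hδ

end Pool.Agent.Results.MP_26ad15_nt.SmallDiscs
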